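import Mathlib
import Pool.Agent.R178.CubeMain
import Pool.Agent.R178.SimplexVol

set_option autoImplicit false

namespace Pool.Agent.Results.MP_980383_co.ExpRatio

/-- `D` is a decomposition of `[0,1]^n` into `n`-simplices, each simplex being given by its vertex
set (any `n+1` affinely independent points): the simplices cover exactly the cube and have pairwise
disjoint interiors. -/
def IsDecomposition (n : ℕ) (D : Finset (Finset (Fin n → ℝ))) : Prop :=
  (∀ S ∈ D, S.card = n + 1 ∧ AffineIndependent ℝ (fun x : S => (x : Fin n → ℝ))) ∧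
  (⋃ S ∈ D, convexHull ℝ (↑S : Set (Fin n → ℝ))) = Set.Icc (0 : Fin n → ℝ) 1 ∧
  (∀ S ∈ D, ∀ S' ∈ D, S ≠ S' →
    Disjoint (interior (convexHull ℝ (↑S : Set (Fin n → ℝ))))
      (interior (convexHull ℝ (↑S' : Set (Fin n → ℝ)))))

/-- `D` is a triangulation of the cube without new vertices: a decomposition whose simplices have
their vertices in `{0,1}^n`, any two of them meeting in the hull of their common vertices. -/
def IsTriangulation (n : ℕ) (D : Finset (Finset (Fin n → ℝ))) : Prop :=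
  IsDecomposition n D ∧
  (∀ S ∈ D, ∀ v ∈ S, ∀ i : Fin n, v i = 0 ∨ v i = 1) ∧
  (∀ S ∈ D, ∀ S' ∈ D, convexHull ℝ (↑S : Set (Fin n → ℝ)) ∩ convexHull ℝ (↑S' : Set (Fin n → ℝ)) =
      convexHull ℝ ((↑S : Set (Fin n → ℝ)) ∩ (↑S' : Set (Fin n → ℝ))))

/-- the minimum size `T(n)` of a decomposition of the `n`-cube -/
noncomputable def minDec (n : ℕ) : ℕ :=
  sInf {m : ℕ | ∃ D, IsDecomposition n D ∧ D.card = m}

/-- the minimum size `T*(n)` of a triangulation of the `n`-cube -/
noncomputable def minTri (n : ℕ) : ℕ :=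
  sInf {m : ℕ | ∃ D, IsTriangulation n D ∧ D.card = m}

lemma interior_hull_eq_empty {d : ℕ} (A : Finset (Fin d → ℝ)) (hA : A.card ≤ d) :
    interior (convexHull ℝ (↑A : Set (Fin d → ℝ))) = ∅ := by
  classical
  by_contra hne
  rw [← Ne, ← Set.nonempty_iff_ne_empty, interior_convexHull_nonempty_iff_affineSpan_eq_top] at hne
  have hvs : vectorSpan ℝ (↑A : Set (Fin d → ℝ)) = ⊤ := by
    rw [← direction_affineSpan, hne, AffineSubspace.direction_top]
  rcases Finset.eq_empty_or_nonempty A with hAe | hAn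
  · rw [hAe, Finset.coe_empty, AffineSubspace.span_empty] at hne
    exact AffineSubspace.bot_ne_top ℝ (Fin d → ℝ) (Fin d → ℝ) hne
  · have hpos : 0 < A.card := hAn.card_pos
    obtain ⟨m, hm⟩ : ∃ m, A.card = m + 1 := ⟨A.card - 1, by omega⟩
    have h1 := finrank_vectorSpan_image_finset_le ℝ (fun x : Fin d → ℝ => x) A hm
    rw [Finset.image_id', hvs, finrank_top, Module.finrank_fin_fun] at h1
    omega

theorem result (n : ℕ) :
    (∃ D, IsDecomposition n D ∧ D.card = minDec n) ∧
    (∃ D, IsTriangulation n D ∧ D.card = minTri n) ∧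
    minDec n ≤ minTri n ∧
    (minTri n : ℝ) ≤ (Real.pi * Real.exp 1) ^ n * (minDec n : ℝ) := by
  classical
  obtain ⟨T, h1, h2, h3, h4⟩ := Pool.R178.exists_small_triangulation n
  have hT : IsTriangulation n T := by
    refine ⟨⟨fun S hS => ⟨(h1 S hS).1, (h1 S hS).2.1⟩, h2, fun S hS S' hS' hne => ?_⟩,
      fun S hS => (h1 S hS).2.2, fun S hS S' hS' => by rw [h3 S hS S' hS', Finset.coe_inter]⟩
    rw [Set.disjoint_iff_inter_eq_empty, ← interior_inter, h3 S hS S' hS']
    have hlt : (S ∩ S').card < S.card := by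
      apply Finset.card_lt_card
      refine Finset.ssubset_iff_subset_ne.2 ⟨Finset.inter_subset_left, fun heq => hne ?_⟩
      have hsub : S ⊆ S' := Finset.inter_eq_left.1 heq
      exact Finset.eq_of_subset_of_card_le hsub (by rw [(h1 S hS).1, (h1 S' hS').1])
    have hle : (S ∩ S').card ≤ n := by
      have := (h1 S hS).1
      omega
    convert interior_hull_eq_empty (S ∩ S') hle
  have hneT : {m : ℕ | ∃ D, IsTriangulation n D ∧ D.card = m}.Nonempty := ⟨T.card, T, hT, rfl⟩
  have hneD : {m : ℕ | ∃ D, IsDecomposition n D ∧ D.card = m}.Nonempty := ⟨T.card, T, hT.1, rfl⟩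
  obtain ⟨T0, hT0, hc0⟩ := Nat.sInf_mem hneT
  obtain ⟨D0, hD0, hd0⟩ := Nat.sInf_mem hneD
  refine ⟨⟨D0, hD0, hd0⟩, ⟨T0, hT0, hc0⟩, ?_, ?_⟩
  · have : minDec n ≤ T0.card := Nat.sInf_le ⟨T0, hT0.1, rfl⟩
    rw [hc0] at this
    exact this
  · have hlow : (Real.sqrt n / Real.exp 1) ^ n ≤ (minDec n : ℝ) := by
      have := Pool.R178.card_lower_bound D0 (fun S hS => (hD0.1 S hS).1) hD0.2.1
      rw [hd0] at this
      exact (Pool.R178.lower_simple n).trans this
    have hup : (minTri n : ℝ) ≤ (Real.pi * Real.sqrt n) ^ n := by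
      have hle : minTri n ≤ T.card := Nat.sInf_le ⟨T, hT, rfl⟩
      have hle' : (minTri n : ℝ) ≤ (T.card : ℝ) := by exact_mod_cast hle
      exact (hle'.trans h4).trans (Pool.R178.upper_simple n)
    calc (minTri n : ℝ) ≤ (Real.pi * Real.sqrt n) ^ n := hup
      _ = (Real.pi * Real.exp 1) ^ n * (Real.sqrt n / Real.exp 1) ^ n := by
          rw [← mul_pow]
          congr 1
          have : Real.exp 1 ≠ 0 := (Real.exp_pos 1).ne'
          field_simp
      _ ≤ (Real.pi * Real.exp 1) ^ n * (minDec n : ℝ) := by gcongr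

end Pool.Agent.Results.MP_980383_co.ExpRatio
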